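import Pool.Agent.H15.MB2

set_option autoImplicit false

namespace Pool.Agent.Results.MP_f804be_nt.RMinimal

theorem result : ∀ h r : ℕ, 3 ≤ h → 2 ≤ r →
    ∃ A : Set ℕ, ∀ S : Set ℕ, S ⊆ A →
      ((∃ N : ℕ, ∀ n : ℕ, N ≤ n →
          ∃ f : Fin h → ℕ, (∀ i, f i ∈ A \ S) ∧ ∑ i, f i = n) ↔ S.encard < (r : ℕ∞)) := by
  intro h r hh _
  obtain ⟨p, rfl⟩ : ∃ p, h = p + 2 := ⟨h - 2, by omega⟩
  exact Pool.Agent.H15.MB.rmin p r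

end Pool.Agent.Results.MP_f804be_nt.RMinimal
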